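import Pool.Agent.H80.SH.Targets

/-!
# Module WLK: `t` steps from the line `u` inside a path class
-/

namespace Pool.Agent.H84.SH

open Finset Pool.Agent.H80.SH

theorem wlk_mem_cut {X α : Type} [DecidableEq X] (V : α → Finset X) (A : Finset X) (l : List α)
    (x : X) : x ∈ cut V A l ↔ x ∈ A ∧ ∀ c ∈ l, x ∉ V c := by
  unfold cut
  rw [mem_filter]

theorem wlk (hPSC : T_PSC) (hSTP : T_STP) (hUNB : T_UNB) : T_WLK := by
  intro X ι _ _ _ _ V L S D k q g H T M R cl hG hCh v t
  obtain ⟨-, hmono, hinter, hfilt⟩ := hPSC X L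
  induction t with
  | zero =>
    intro u r P hP hr hsub hbig
    refine ⟨(cut V (R.A v) (cl v) ∩ P) ∩ cut V (R.A u) (cl u), inter_subset_left, ?_, ?_⟩
    · intro z hz
      exact ⟨u, by simp, (mem_inter.1 hz).2⟩
    · have hlen : (cl u).length < T := (hG (R.A u) (R.mem u) (cl u) (hCh u)).1
      have hU := hUNB X ι V H (cut V (R.A v) (cl v) ∩ P) (cl u).toFinset
      have hsub2 : (cut V (R.A v) (cl v) ∩ P) \
          ((cut V (R.A v) (cl v) ∩ P) ∩ cut V (R.A u) (cl u)) ⊆
          (cut V (R.A v) (cl v) ∩ P).filter (fun x => ∃ j ∈ (cl u).toFinset, x ∈ V j) := by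
        intro z hz
        rw [mem_sdiff] at hz
        obtain ⟨hz1, hz2⟩ := hz
        rw [mem_filter]
        refine ⟨hz1, ?_⟩
        by_contra hcon
        push Not at hcon
        apply hz2
        rw [mem_inter]
        refine ⟨hz1, ?_⟩
        exact (wlk_mem_cut V _ _ _).2
          ⟨hsub hz1, fun c hc => hcon c (List.mem_toFinset.2 hc)⟩
      have hJ : (cl u).toFinset.card ≤ T := (List.toFinset_card_le _).trans hlen.le
      have h1 : H * ((cut V (R.A v) (cl v) ∩ P) \
          ((cut V (R.A v) (cl v) ∩ P) ∩ cut V (R.A u) (cl u))).card ≤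
          H * pot V H (cut V (R.A v) (cl v) ∩ P) +
            (cl u).toFinset.card * (cut V (R.A v) (cl v) ∩ P).card :=
        (Nat.mul_le_mul_left H (card_le_card hsub2)).trans hU
      have h2 : (cl u).toFinset.card * (cut V (R.A v) (cl v) ∩ P).card ≤
          (2 ^ k * (q + T)) * (cut V (R.A v) (cl v) ∩ P).card := by
        apply Nat.mul_le_mul_right
        have h3 : 1 ≤ 2 ^ k := Nat.one_le_two_pow
        calc (cl u).toFinset.card ≤ T := hJ
          _ ≤ q + T := Nat.le_add_left _ _
          _ = 1 * (q + T) := (one_mul _).symm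
          _ ≤ 2 ^ k * (q + T) := Nat.mul_le_mul_right _ h3
      have h4 : (0 + 1) * (H * pot V H (cut V (R.A v) (cl v) ∩ P)) =
          H * pot V H (cut V (R.A v) (cl v) ∩ P) := by ring
      have h5 : (0 + 1) ^ 2 * (2 ^ k * (q + T)) * (cut V (R.A v) (cl v) ∩ P).card =
          (2 ^ k * (q + T)) * (cut V (R.A v) (cl v) ∩ P).card := by ring
      rw [h4, h5]
      omega
  | succ t ih =>
    intro u r P hP hr hsub hbig
    set B0 := cut V (R.A v) (cl v) with hB0
    set K := B0 ∩ P with hK
    set Q := R.P u with hQ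
    have hQc : Q.card ≤ 2 ^ k := R.card_P u
    let Pa : Fin S → Finset X := fun a =>
      (P.filter (fun x => ∀ a' ∈ Q.filter (fun b => b < a), x ∉ R.A a')) ∩ R.A a
    let Ka : Fin S → Finset X := fun a => B0 ∩ Pa a
    have hr' : r + 2 ^ k + t * 2 ^ k ≤ M := by
      have : (t + 1) * 2 ^ k = t * 2 ^ k + 2 ^ k := by ring
      omega
    have hPa : ∀ a ∈ Q, Pa a ∈ PS L (r + 2 ^ k) := by
      intro a ha
      have h1 := hfilt S R.A (Q.filter (fun b => b < a)) r P (fun i => R.mem i) hP
      have h2 := hinter _ _ (R.A a) h1 (R.mem a)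
      refine hmono _ _ ?_ h2
      have h3 : (Q.filter (fun b => b < a)).card < Q.card := by
        apply card_lt_card
        refine ⟨filter_subset _ _, fun hh => ?_⟩
        have := hh ha
        rw [mem_filter] at this
        exact lt_irrefl _ this.2
      omega
    have hPaM : ∀ a ∈ Q, Pa a ∈ PS L M := by
      intro a ha
      refine hmono _ _ ?_ (hPa a ha)
      omega
    have hKaK : ∀ a, Ka a ⊆ K := by
      intro a x hx
      simp only [Ka, Pa, mem_inter, mem_filter] at hx
      rw [hK, mem_inter]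
      exact ⟨hx.1, hx.2.1.1⟩
    have hKaA : ∀ a, Ka a ⊆ R.A a := by
      intro a x hx
      simp only [Ka, Pa, mem_inter, mem_filter] at hx
      exact hx.2.2
    have hdis' : ∀ a ∈ Q, ∀ b ∈ Q, a < b → Disjoint (Ka a) (Ka b) := by
      intro a ha b hb hab
      rw [disjoint_left]
      intro x hxa hxb
      simp only [Ka, Pa, mem_inter, mem_filter] at hxa hxb
      exact hxb.2.1.2 a ⟨ha, hab⟩ hxa.2.2
    have hdis : ∀ a ∈ Q, ∀ b ∈ Q, a ≠ b → Disjoint (Ka a) (Ka b) := by
      intro a ha b hb hab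
      rcases lt_or_gt_of_ne hab with h | h
      · exact hdis' a ha b hb h
      · exact (hdis' b hb a ha h).symm
    have hmin : ∀ z ∈ K, (∃ a ∈ Q, z ∈ R.A a) → ∃ a ∈ Q, z ∈ Ka a := by
      intro z hz ⟨a0, ha0, hza0⟩
      have hne : (Q.filter (fun a => z ∈ R.A a)).Nonempty := ⟨a0, mem_filter.2 ⟨ha0, hza0⟩⟩
      set a := (Q.filter (fun a => z ∈ R.A a)).min' hne with ha
      have hmem : a ∈ Q.filter (fun a => z ∈ R.A a) := min'_mem _ _
      rw [mem_filter] at hmem
      refine ⟨a, hmem.1, ?_⟩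
      rw [hK, mem_inter] at hz
      simp only [Ka, Pa, mem_inter, mem_filter]
      refine ⟨hz.1, ⟨hz.2, ?_⟩, hmem.2⟩
      intro a' ha' hza'
      have h1 : a ≤ a' := min'_le _ _ (mem_filter.2 ⟨ha'.1, hza'⟩)
      exact absurd ha'.2 (not_lt.2 h1)
    let Ks : Finset X := K.filter (fun z => ∀ a ∈ Q, z ∉ R.A a)
    have hKs : H * Ks.card ≤ H * pot V H K + q * K.card := by
      have hU := hUNB X ι V H K (R.J u)
      have hsub2 : Ks ⊆ K.filter (fun x => ∃ j ∈ R.J u, x ∈ V j) := by
        intro z hz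
        rw [mem_filter] at hz ⊢
        refine ⟨hz.1, ?_⟩
        rcases R.sound u z (hsub hz.1) with ⟨a, ha, hza⟩ | h
        · exact absurd hza (hz.2 a ha)
        · exact h
      calc H * Ks.card ≤ H * (K.filter (fun x => ∃ j ∈ R.J u, x ∈ V j)).card :=
            Nat.mul_le_mul_left H (card_le_card hsub2)
        _ ≤ H * pot V H K + (R.J u).card * K.card := hU
        _ ≤ H * pot V H K + q * K.card :=
            Nat.add_le_add_left (Nat.mul_le_mul_right _ (R.card_J u)) _
    let I : Finset (Fin S) := Q.filter (fun a => 2 ^ g ≤ (Ka a).card)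
    have hIQ : I ⊆ Q := filter_subset _ _
    have hex : ∀ a : Fin S, ∃ W ⊆ Ka a, (a ∈ I →
        (∀ z ∈ W, ∃ u', R.dep u' + t ≤ R.dep a ∧ z ∈ cut V (R.A u') (cl u')) ∧
        H * ((Ka a) \ W).card ≤
          H * (2 ^ (k * t) * 2 ^ g) + (t + 1) * (H * pot V H (Ka a)) +
            (t + 1) ^ 2 * (2 ^ k * (q + T)) * (Ka a).card) := by
      intro a
      by_cases ha : a ∈ I
      · have ha' := mem_filter.1 ha
        obtain ⟨W, hW, h1, h2⟩ := ih a (r + 2 ^ k) (Pa a) (hPa a ha'.1) hr' (hKaA a) ha'.2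
        exact ⟨W, hW, fun _ => ⟨h1, h2⟩⟩
      · exact ⟨∅, empty_subset _, fun h => absurd h ha⟩
    choose Wa hWa hWa2 using hex
    refine ⟨I.biUnion Wa, ?_, ?_, ?_⟩
    · intro z hz
      rw [mem_biUnion] at hz
      obtain ⟨a, ha, hza⟩ := hz
      exact hKaK a (hWa a hza)
    · intro z hz
      rw [mem_biUnion] at hz
      obtain ⟨a, ha, hza⟩ := hz
      obtain ⟨u', h1, h2⟩ := (hWa2 a ha).1 z hza
      have h3 : R.dep a < R.dep u := R.lt u a (hIQ ha)
      exact ⟨u', by omega, h2⟩
    · have hcov : K \ (I.biUnion Wa) ⊆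
          Ks ∪ ((Q \ I).biUnion Ka ∪ I.biUnion (fun a => Ka a \ Wa a)) := by
        intro z hz
        rw [mem_sdiff] at hz
        rw [mem_union, mem_union]
        by_cases h : ∃ a ∈ Q, z ∈ R.A a
        · obtain ⟨a, ha, hza⟩ := hmin z hz.1 h
          right
          by_cases haI : a ∈ I
          · right
            rw [mem_biUnion]
            refine ⟨a, haI, mem_sdiff.2 ⟨hza, fun hh => hz.2 ?_⟩⟩
            rw [mem_biUnion]
            exact ⟨a, haI, hh⟩
          · left
            rw [mem_biUnion]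
            exact ⟨a, mem_sdiff.2 ⟨ha, haI⟩, hza⟩
        · left
          rw [mem_filter]
          push Not at h
          exact ⟨hz.1, h⟩
      have hc1 : (K \ (I.biUnion Wa)).card ≤
          Ks.card + (∑ a ∈ Q \ I, (Ka a).card + ∑ a ∈ I, (Ka a \ Wa a).card) := by
        refine (card_le_card hcov).trans ((card_union_le _ _).trans ?_)
        refine Nat.add_le_add_left ((card_union_le _ _).trans ?_) _
        exact Nat.add_le_add card_biUnion_le card_biUnion_le
      have hsumKa : ∑ a ∈ I, (Ka a).card ≤ K.card := by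
        rw [← card_biUnion (fun a ha b hb hab => hdis a (hIQ ha) b (hIQ hb) hab)]
        apply card_le_card
        intro z hz
        rw [mem_biUnion] at hz
        obtain ⟨a, ha, hza⟩ := hz
        exact hKaK a hza
      have hpot : H * ∑ a ∈ I, pot V H (Ka a) ≤ H * pot V H K + I.card * T * K.card := by
        refine hSTP X ι V H T S K I Ka (fun a _ => hKaK a)
          (fun a ha b hb hab => hdis a (hIQ ha) b (hIQ hb) hab) ?_
        intro a ha
        have ha' := mem_filter.1 ha
        have := (hG (R.A v) (R.mem v) (cl v) (hCh v)).2 (Pa a) (hPaM a ha'.1) ha'.2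
        have h2 : (dense V H (Ka a)).card =
          (dense V H (cut V (R.A v) (cl v) ∩ Pa a)).card := rfl
        omega
      have hIc : I.card ≤ 2 ^ k := (card_le_card hIQ).trans hQc
      have hsm : H * ∑ a ∈ Q \ I, (Ka a).card ≤ (Q \ I).card * (H * (2 ^ (k * t) * 2 ^ g)) := by
        rw [mul_sum]
        rw [← smul_eq_mul (a := (Q \ I).card)]
        apply sum_le_card_nsmul
        intro a ha
        rw [mem_sdiff] at ha
        have h1 : (Ka a).card < 2 ^ g := by
          by_contra hcon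
          push Not at hcon
          exact ha.2 (mem_filter.2 ⟨ha.1, hcon⟩)
        apply Nat.mul_le_mul_left
        have h3 : 1 ≤ 2 ^ (k * t) := Nat.one_le_two_pow
        calc (Ka a).card ≤ 2 ^ g := h1.le
          _ = 1 * 2 ^ g := (one_mul _).symm
          _ ≤ 2 ^ (k * t) * 2 ^ g := Nat.mul_le_mul_right _ h3
      have hlg : H * ∑ a ∈ I, (Ka a \ Wa a).card ≤
          I.card * (H * (2 ^ (k * t) * 2 ^ g)) + (t + 1) * (H * ∑ a ∈ I, pot V H (Ka a)) +
            (t + 1) ^ 2 * (2 ^ k * (q + T)) * ∑ a ∈ I, (Ka a).card := by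
        have h1 : H * ∑ a ∈ I, (Ka a \ Wa a).card ≤ ∑ a ∈ I,
            (H * (2 ^ (k * t) * 2 ^ g) + (t + 1) * (H * pot V H (Ka a)) +
              (t + 1) ^ 2 * (2 ^ k * (q + T)) * (Ka a).card) := by
          rw [mul_sum]
          exact sum_le_sum (fun a ha => (hWa2 a ha).2)
        refine h1.trans (le_of_eq ?_)
        rw [sum_add_distrib, sum_add_distrib, sum_const, smul_eq_mul, ← mul_sum, ← mul_sum,
          ← mul_sum]
      have hcard : (Q \ I).card + I.card ≤ 2 ^ k := by
        rw [card_sdiff_add_card_eq_card hIQ]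
        exact hQc
      -- assembling
      have e1 : H * (K \ (I.biUnion Wa)).card ≤
          H * Ks.card + (H * ∑ a ∈ Q \ I, (Ka a).card + H * ∑ a ∈ I, (Ka a \ Wa a).card) := by
        calc H * (K \ (I.biUnion Wa)).card ≤
            H * (Ks.card + (∑ a ∈ Q \ I, (Ka a).card + ∑ a ∈ I, (Ka a \ Wa a).card)) :=
              Nat.mul_le_mul_left H hc1
          _ = _ := by ring
      have e2 : (Q \ I).card * (H * (2 ^ (k * t) * 2 ^ g)) + I.card * (H * (2 ^ (k * t) * 2 ^ g)) ≤
          H * (2 ^ (k * (t + 1)) * 2 ^ g) := by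
        calc (Q \ I).card * (H * (2 ^ (k * t) * 2 ^ g)) + I.card * (H * (2 ^ (k * t) * 2 ^ g)) =
            ((Q \ I).card + I.card) * (H * (2 ^ (k * t) * 2 ^ g)) := by ring
          _ ≤ 2 ^ k * (H * (2 ^ (k * t) * 2 ^ g)) := Nat.mul_le_mul_right _ hcard
          _ = H * (2 ^ (k * (t + 1)) * 2 ^ g) := by
              rw [show k * (t + 1) = k * t + k by ring, pow_add]
              ring
      have e3 : (t + 1) * (H * ∑ a ∈ I, pot V H (Ka a)) ≤
          (t + 1) * (H * pot V H K) + (t + 1) * (2 ^ k * T) * K.card := by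
        calc (t + 1) * (H * ∑ a ∈ I, pot V H (Ka a)) ≤
            (t + 1) * (H * pot V H K + I.card * T * K.card) := Nat.mul_le_mul_left _ hpot
          _ ≤ (t + 1) * (H * pot V H K + 2 ^ k * T * K.card) := by
              apply Nat.mul_le_mul_left
              apply Nat.add_le_add_left
              exact Nat.mul_le_mul_right _ (Nat.mul_le_mul_right _ hIc)
          _ = (t + 1) * (H * pot V H K) + (t + 1) * (2 ^ k * T) * K.card := by ring
      have e4 : (t + 1) ^ 2 * (2 ^ k * (q + T)) * ∑ a ∈ I, (Ka a).card ≤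
          (t + 1) ^ 2 * (2 ^ k * (q + T)) * K.card := Nat.mul_le_mul_left _ hsumKa
      have e5 : q * K.card + (t + 1) * (2 ^ k * T) * K.card +
          (t + 1) ^ 2 * (2 ^ k * (q + T)) * K.card ≤
          (t + 1 + 1) ^ 2 * (2 ^ k * (q + T)) * K.card := by
        rw [← add_mul, ← add_mul]
        apply Nat.mul_le_mul_right
        have f1 : q ≤ 2 ^ k * (q + T) := by
          have h3 : 1 ≤ 2 ^ k := Nat.one_le_two_pow
          calc q ≤ q + T := Nat.le_add_right _ _
            _ = 1 * (q + T) := (one_mul _).symm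
            _ ≤ 2 ^ k * (q + T) := Nat.mul_le_mul_right _ h3
        have f2 : 2 ^ k * T ≤ 2 ^ k * (q + T) := Nat.mul_le_mul_left _ (Nat.le_add_left _ _)
        generalize 2 ^ k * (q + T) = Y at f1 f2 ⊢
        generalize 2 ^ k * T = Z at f2 ⊢
        calc q + (t + 1) * Z + (t + 1) ^ 2 * Y ≤ Y + (t + 1) * Y + (t + 1) ^ 2 * Y := by gcongr
          _ ≤ Y + (t + 1) * Y + (t + 1) ^ 2 * Y + (t + 1) * Y := Nat.le_add_right _ _
          _ = (t + 1 + 1) ^ 2 * Y := by ring
      have e6 : (t + 1 + 1) * (H * pot V H K) = H * pot V H K + (t + 1) * (H * pot V H K) := by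
        ring
      rw [e6]
      omega

end Pool.Agent.H84.SH
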